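import Pool.Agent.Helper53.PF.St

set_option linter.style.longLine false

/-!
# Project PF (MP_ad0dc2_nt), module LNA: the case without `z²`
-/

namespace PF.Helper15

open Polynomial

variable {k : Type} [Field k]

theorem ne_zero_of_dom {p q : k[X]} (h : q.natDegree < p.natDegree) : p + q ≠ 0 := by
  intro h0
  have h1 := natDegree_add_eq_left_of_natDegree_lt h
  rw [h0, natDegree_zero] at h1
  omega

theorem deg_three {A B C' Z : k[X]} (hA : A.natDegree % 3 = 0) (hB : B = 0 ∨ B.natDegree % 3 = 2)
    (hC : C'.natDegree % 3 = 1) (hC16 : 16 ≤ C'.natDegree) (hZ : Z.natDegree = 15) :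
    Z + C' + B + A ≠ 0 := by
  have hle : ∀ {p q : k[X]} {m : ℕ}, p.natDegree < m → q.natDegree < m →
      (p + q).natDegree < m := fun hp hq => lt_of_le_of_lt (natDegree_add_le _ _) (max_lt hp hq)
  have hBC : B.natDegree ≠ C'.natDegree := by
    rcases hB with rfl | hB
    · rw [natDegree_zero]; omega
    · omega
  have hBA : B.natDegree ≠ A.natDegree ∨ B.natDegree < C'.natDegree := by
    rcases hB with rfl | hB
    · right; rw [natDegree_zero]; omega
    · left; omega
  rcases lt_trichotomy A.natDegree C'.natDegree with h1 | h1 | h1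
  · rcases lt_or_gt_of_ne hBC with h2 | h2
    · have : Z + C' + B + A = C' + (Z + B + A) := by ring
      rw [this]
      exact ne_zero_of_dom (hle (hle (by omega) h2) h1)
    · have : Z + C' + B + A = B + (Z + C' + A) := by ring
      rw [this]
      exact ne_zero_of_dom (hle (hle (by omega) h2) (by omega))
  · omega
  · rcases lt_trichotomy B.natDegree A.natDegree with h2 | h2 | h2
    · have : Z + C' + B + A = A + (Z + C' + B) := by ring
      rw [this]
      exact ne_zero_of_dom (hle (hle (by omega) h1) h2)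
    · omega
    · have : Z + C' + B + A = B + (Z + C' + A) := by ring
      rw [this]
      exact ne_zero_of_dom (hle (hle (by omega) (by omega)) h2)

theorem ev_cubic {s z : k[X]} {M : k[X][X]} (hM : M.Monic) (hd : M.natDegree = 3) :
    ev s z M = z ^ 3 + (M.coeff 2).comp s * z ^ 2 + (M.coeff 1).comp s * z +
      (M.coeff 0).comp s := by
  have h1 : ev s z M = ∑ i ∈ Finset.range (M.natDegree + 1), (M.coeff i).comp s * z ^ i := by
    change eval₂ (compRingHom s) z M = _
    rw [eval₂_eq_sum_range]
    rfl
  have h3 : M.coeff 3 = 1 := by rw [← hd]; exact hM.coeff_natDegree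
  rw [h1, hd]
  simp only [Finset.sum_range_succ, Finset.sum_range_zero, h3]
  simp
  ring

theorem holds_LNA : PF.StLNA := by
  intro hIND k _ _ n s z w hC M hM hMd hMev D a b hD0 hD
  have hs3 := hC.ds
  have hz5 := hC.dz
  have hcomp : ∀ f : k[X], (f.comp s).natDegree = 3 * f.natDegree := by
    intro f
    rw [natDegree_comp, hs3, mul_comm]
  rw [ev_cubic hM hMd] at hMev
  set m₂ := M.coeff 2
  set m₁ := M.coeff 1
  set m₀ := M.coeff 0
  -- step 1
  have hcurve := hC.eq
  have h1 : 3 * s * (a.comp s + b.comp s * z) ^ 2 + (D.comp s) ^ 2 * (s ^ 3 + 4 * z ^ 3 - C (4 * n)) = 0 := by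
    rw [← hD]
    linear_combination (D.comp s) ^ 2 * hcurve
  have h2 : (3 * X * a ^ 2 + D ^ 2 * (X ^ 3 - C (4 * n)) - 4 * D ^ 2 * m₀).comp s +
      (6 * X * a * b - 4 * D ^ 2 * m₁).comp s * z +
      (3 * X * b ^ 2 - 4 * D ^ 2 * m₂).comp s * z ^ 2 = 0 := by
    simp only [sub_comp, add_comp, mul_comp, pow_comp, X_comp, C_comp, ofNat_comp]
    linear_combination h1 - 4 * (D.comp s) ^ 2 * hMev
  obtain ⟨_, _, h3⟩ := hIND k s z _ _ _ hs3 (by rw [hz5]; norm_num) h2
  have h3' : 3 * X * b ^ 2 = 4 * D ^ 2 * m₂ := by linear_combination h3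
  -- step 2
  have hm2 : m₂.natDegree ≤ 1 := by
    by_contra hlt
    have hm20 : m₂ ≠ 0 := by
      intro h
      rw [h, natDegree_zero] at hlt
      omega
    have hc2 : m₂.comp s ≠ 0 := by
      intro h
      have := hcomp m₂
      rw [h, natDegree_zero] at this
      omega
    have hz0 : z ≠ 0 := by
      rintro rfl
      rw [natDegree_zero] at hz5
      omega
    have hdC : (m₂.comp s * z ^ 2).natDegree = 3 * m₂.natDegree + 10 := by
      rw [natDegree_mul hc2 (pow_ne_zero 2 hz0), hcomp, natDegree_pow, hz5]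
    have hdZ : (z ^ 3).natDegree = 15 := by rw [natDegree_pow, hz5]
    have hdB : (m₁.comp s * z) = 0 ∨ (m₁.comp s * z).natDegree % 3 = 2 := by
      by_cases h : m₁.comp s = 0
      · left; rw [h, zero_mul]
      · right
        rw [natDegree_mul h hz0, hcomp, hz5]
        omega
    refine deg_three (A := m₀.comp s) (B := m₁.comp s * z) (C' := m₂.comp s * z ^ 2)
      (Z := z ^ 3) ?_ hdB ?_ ?_ hdZ hMev
    · rw [hcomp]; omega
    · rw [hdC]; omega
    · rw [hdC]; omega
  -- step 3
  have hg : ∃ g : k, b = C g * D := by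
    by_cases hb : b = 0
    · exact ⟨0, by rw [hb, map_zero, zero_mul]⟩
    have h30 : (3 : k[X]) ≠ 0 := by norm_num
    have h40 : (4 : k[X]) ≠ 0 := by norm_num
    have hX0 : (X : k[X]) ≠ 0 := X_ne_zero
    have hL0 : 3 * X * b ^ 2 ≠ 0 := mul_ne_zero (mul_ne_zero h30 hX0) (pow_ne_zero 2 hb)
    have hm0 : m₂ ≠ 0 := by
      intro h
      rw [h, mul_zero] at h3'
      exact hL0 h3'
    have htr3 : (3 : k[X]).natTrailingDegree = 0 := by
      have : (3 : k[X]) = C 3 := by rfl
      rw [this, natTrailingDegree_C]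
    have htr4 : (4 : k[X]).natTrailingDegree = 0 := by
      have : (4 : k[X]) = C 4 := by rfl
      rw [this, natTrailingDegree_C]
    have ht := congrArg natTrailingDegree h3'
    rw [natTrailingDegree_mul (mul_ne_zero h30 hX0) (pow_ne_zero 2 hb),
      natTrailingDegree_mul h30 hX0, natTrailingDegree_X, htr3, pow_two,
      natTrailingDegree_mul hb hb, natTrailingDegree_mul (mul_ne_zero h40 (pow_ne_zero 2 hD0)) hm0,
      natTrailingDegree_mul h40 (pow_ne_zero 2 hD0), htr4, pow_two,
      natTrailingDegree_mul hD0 hD0] at ht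
    have hle := natTrailingDegree_le_natDegree m₂
    have ht1 : m₂.natTrailingDegree = 1 := by omega
    have hc0 : m₂.coeff 0 = 0 := coeff_eq_zero_of_lt_natTrailingDegree (by omega)
    have hm2X : m₂ = C (m₂.coeff 1) * X := by
      have := eq_X_add_C_of_natDegree_le_one hm2
      rw [hc0, map_zero, add_zero] at this
      exact this
    have h5 : 3 * b ^ 2 = D ^ 2 * (4 * C (m₂.coeff 1)) := by
      have h6 : X * (3 * b ^ 2) = X * (D ^ 2 * (4 * C (m₂.coeff 1))) := by
        have h7 := h3'
        rw [hm2X] at h7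
        linear_combination h7
      exact mul_left_cancel₀ hX0 h6
    have h6 : D ^ 2 ∣ b ^ 2 := by
      refine ⟨C (3⁻¹) * (4 * C (m₂.coeff 1)), ?_⟩
      have h7 : (C (3⁻¹ : k) * 3 : k[X]) = 1 := by
        have : (3 : k[X]) = C 3 := by rfl
        rw [this, ← C_mul, inv_mul_cancel₀ (by norm_num), C_1]
      linear_combination C (3⁻¹) * h5 - b ^ 2 * h7
    have h7 : D ∣ b := (UniqueFactorizationMonoid.pow_dvd_pow_iff_dvd two_ne_zero).1 h6
    obtain ⟨g, hg⟩ := h7
    have hg2 : 3 * g ^ 2 = 4 * C (m₂.coeff 1) := by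
      have h8 : D ^ 2 * (3 * g ^ 2) = D ^ 2 * (4 * C (m₂.coeff 1)) := by
        rw [hg] at h5
        linear_combination h5
      exact mul_left_cancel₀ (pow_ne_zero 2 hD0) h8
    have hgd : g.natDegree = 0 := by
      have hg0 : g ≠ 0 := by
        rintro rfl
        rw [mul_zero] at hg
        exact hb hg
      have h8 : (3 * g ^ 2).natDegree = 2 * g.natDegree := by
        have : (3 : k[X]) = C 3 := by rfl
        rw [this, natDegree_C_mul (by norm_num), natDegree_pow]
      have h9 : (4 * C (m₂.coeff 1) : k[X]).natDegree = 0 := by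
        have : (4 : k[X]) = C 4 := by rfl
        rw [this, ← C_mul, natDegree_C]
      rw [hg2, h9] at h8
      omega
    obtain ⟨c, rfl⟩ := natDegree_eq_zero.1 hgd
    exact ⟨c, by rw [hg, mul_comm]⟩
  obtain ⟨g, rfl⟩ := hg
  -- step 4
  have h5 : D.comp s * (w - C g * z) = a.comp s := by
    have : (C g * D).comp s = C g * D.comp s := by simp
    rw [this] at hD
    linear_combination hD
  have hDc0 : D.comp s ≠ 0 := by
    intro h
    rcases comp_eq_zero_iff.1 h with h | ⟨_, h⟩
    · exact hD0 h
    · rw [h, natDegree_C] at hs3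
      omega
  have h6 : a = D * (a / D) + a % D := (EuclideanDomain.div_add_mod a D).symm
  have hrd : a % D = 0 := by
    by_contra hr
    have h7 : D.comp s * (w - C g * z - (a / D).comp s) = (a % D).comp s := by
      have h8 : a.comp s = D.comp s * (a / D).comp s + (a % D).comp s := by
        conv_lhs => rw [h6]
        simp
      linear_combination h5 + h8
    have h8 : (a % D).comp s ≠ 0 := by
      intro h
      rcases comp_eq_zero_iff.1 h with h | ⟨_, h⟩
      · exact hr h
      · rw [h, natDegree_C] at hs3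
        omega
    have h9 : w - C g * z - (a / D).comp s ≠ 0 := by
      intro h
      rw [h, mul_zero] at h7
      exact h8 h7.symm
    have h10 := congrArg natDegree h7
    rw [natDegree_mul hDc0 h9, hcomp, hcomp] at h10
    have h11 : (a % D).degree < D.degree := EuclideanDomain.mod_lt a hD0
    have h12 : (a % D).natDegree < D.natDegree := natDegree_lt_natDegree hr h11
    omega
  have h7 : w - C g * z = (a / D).comp s := by
    have h8 : a.comp s = D.comp s * (a / D).comp s := by
      conv_lhs => rw [h6, hrd]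
      simp
    rw [h8] at h5
    exact mul_left_cancel₀ hDc0 h5
  have h8 : (a / D).natDegree ≤ 2 := by
    have h9 := congrArg natDegree h7
    rw [hcomp] at h9
    have h10 : (w - C g * z).natDegree ≤ 6 := by
      refine (natDegree_sub_le _ _).trans (max_le hC.dw.le ?_)
      exact (natDegree_C_mul_le _ _).trans (by omega)
    omega
  refine ⟨(a / D).coeff 2, g, (a / D).coeff 1, (a / D).coeff 0, ?_⟩
  have h9 : a / D = C ((a / D).coeff 2) * X ^ 2 + C ((a / D).coeff 1) * X + C ((a / D).coeff 0) := by
    have := (a / D).as_sum_range_C_mul_X_pow' (n := 3) (by omega)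
    rw [this]
    simp [Finset.sum_range_succ]
    ring
  have h10 : (a / D).comp s = C ((a / D).coeff 2) * s ^ 2 + C ((a / D).coeff 1) * s +
      C ((a / D).coeff 0) := by
    conv_lhs => rw [h9]
    simp
  rw [h10] at h7
  linear_combination h7

end PF.Helper15
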