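import Pool.Agent.Helper53.PF.St

set_option linter.style.longLine false

/-!
# Project PF (MP_ad0dc2_nt), module TRC: the Euler trace formula
-/

namespace PF.Helper15

open Polynomial

theorem euler {K L : Type} [Field K] [Field L] [Algebra K L] [FiniteDimensional K L]
    [Algebra.IsSeparable K L] (g : L) (hg : IntermediateField.adjoin K {g} = ⊤) (P : K[X])
    (hP : P.natDegree < (minpoly K g).natDegree) :
    Algebra.trace K L (aeval g P / aeval g (derivative (minpoly K g))) =
      P.coeff ((minpoly K g).natDegree - 1) := by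
  classical
  have hint : IsIntegral K g := Algebra.IsIntegral.isIntegral g
  have hadj : Algebra.adjoin K {g} = ⊤ := by
    rw [← IntermediateField.adjoin_simple_toSubalgebra_of_isAlgebraic hint.isAlgebraic, hg]
    rfl
  let pb : PowerBasis K L := PowerBasis.ofAdjoinEqTop hint hadj
  have hgen : pb.gen = g := PowerBasis.ofAdjoinEqTop_gen hint hadj
  have hdim : pb.dim = (minpoly K g).natDegree := PowerBasis.ofAdjoinEqTop_dim hint hadj
  have hdim0 : 0 < (minpoly K g).natDegree := minpoly.natDegree_pos hint
  set m := (minpoly K g).natDegree with hm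
  have hcoef : (minpolyDiv K g).coeff (m - 1) = 1 := by
    have h1 := natDegree_minpolyDiv_succ (R := K) (x := g) hint
    have h2 : (minpolyDiv K g).natDegree = m - 1 := by omega
    rw [← h2]
    exact (minpolyDiv_monic hint).coeff_natDegree
  have hlast : m - 1 < pb.dim := by omega
  have htr : ∀ i < m, Algebra.trace K L (g ^ i / aeval g (derivative (minpoly K g))) =
      if i = m - 1 then 1 else 0 := by
    intro i hi
    have h1 := Module.Basis.trace_traceDual_mul pb.basis ⟨m - 1, hlast⟩ ⟨i, by omega⟩
    rw [Module.Basis.traceDual_powerBasis_eq, PowerBasis.coe_basis, hgen] at h1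
    simp only [hcoef, Fin.mk.injEq] at h1
    rw [← h1]
    congr 1
    ring
  have hsum : aeval g P / aeval g (derivative (minpoly K g)) =
      ∑ i ∈ Finset.range m, P.coeff i • (g ^ i / aeval g (derivative (minpoly K g))) := by
    rw [aeval_eq_sum_range' hP, Finset.sum_div]
    refine Finset.sum_congr rfl fun i _ => ?_
    rw [smul_div_assoc]
  rw [hsum, map_sum]
  simp only [map_smul, smul_eq_mul]
  rw [Finset.sum_congr rfl fun i hi => by rw [htr i (Finset.mem_range.1 hi)]]
  simp only [mul_ite, mul_one, mul_zero]
  rw [Finset.sum_ite_eq' (Finset.range m) (m - 1)]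
  rw [if_pos (Finset.mem_range.2 (by omega))]

variable {k : Type} [Field k]

/-- the polynomial as a rational function -/
noncomputable abbrev io (k : Type) [Field k] : k[X] →+* RatFunc k := algebraMap k[X] (RatFunc k)

/-- the field generated by `v` -/
noncomputable abbrev Kv (v : k[X]) : IntermediateField k (RatFunc k) :=
  IntermediateField.adjoin k {io k v}

/-- `c ↦ c(v)` -/
noncomputable def psi (v : k[X]) : k[X] →+* Kv v :=
  ((aeval (⟨io k v, IntermediateField.mem_adjoin_simple_self k _⟩ : Kv v) : k[X] →ₐ[k] Kv v) :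
    k[X] →+* Kv v)

theorem psi_val (v c : k[X]) : ((psi v c : Kv v) : RatFunc k) = io k (c.comp v) := by
  have h : ((Kv v).val.toRingHom.comp (psi v)) = (io k).comp (compRingHom v) := by
    refine Polynomial.ringHom_ext (fun a => ?_) ?_
    · simp [psi, io]
    · simp [psi, io]
  exact congrArg (fun f => f c) h

theorem psi_injective {v : k[X]} (hv : 0 < v.natDegree) : Function.Injective (psi v) := by
  rw [injective_iff_map_eq_zero]
  intro c hc
  have h1 := psi_val v c
  rw [hc] at h1
  have h2 : io k (c.comp v) = 0 := by rw [← h1]; rfl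
  have h3 : c.comp v = 0 := by
    have := (IsFractionRing.injective k[X] (RatFunc k))
    exact this (by simpa [io] using h2)
  rcases comp_eq_zero_iff.1 h3 with h | ⟨_, h⟩
  · exact h
  · rw [h, natDegree_C] at hv
    omega

theorem aeval_psi (v y : k[X]) (P : k[X][X]) :
    aeval (io k y) (P.map (psi v)) = io k (ev v y P) := by
  have h : ((aeval (io k y) : (Kv v)[X] →ₐ[Kv v] RatFunc k) : (Kv v)[X] →+* RatFunc k).comp
      (mapRingHom (psi v)) = (io k).comp (ev v y) := by
    refine Polynomial.ringHom_ext (fun a => ?_) ?_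
    · simp only [RingHom.comp_apply, coe_mapRingHom, map_C, RingHom.coe_coe, aeval_C]
      change ((psi v a : Kv v) : RatFunc k) = _
      rw [psi_val]
      simp [ev]
    · simp [ev]
  exact congrArg (fun f => f P) h

theorem finrank_Kv {v : k[X]} : Module.finrank (Kv v) (RatFunc k) = v.natDegree := by
  have := RatFunc.finrank_eq_max_natDegree (io k v)
  rw [this, io, RatFunc.num_algebraMap, RatFunc.denom_algebraMap]
  simp

theorem gen_top {v y : k[X]} (hv : 0 < v.natDegree) (hc : Nat.Coprime y.natDegree v.natDegree) :
    IntermediateField.adjoin (Kv v) {io k y} = ⊤ := by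
  have hfv : FiniteDimensional (Kv v) (RatFunc k) :=
    Module.finite_of_finrank_pos (by rw [finrank_Kv]; exact hv)
  rw [← IntermediateField.restrictScalars_eq_top_iff (K := k)]
  set E := (IntermediateField.adjoin (Kv v) {io k y}).restrictScalars k with hE
  have hvE : Kv v ≤ E := by
    rw [hE, IntermediateField.restrictScalars_adjoin]
    intro x hx
    exact IntermediateField.subset_adjoin _ _ (Or.inl hx)
  have h1 : Module.finrank E (RatFunc k) ∣ v.natDegree := by
    rw [← finrank_Kv (v := v)]
    exact IntermediateField.finrank_dvd_of_le_left hvE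
  have hone : Module.finrank E (RatFunc k) = 1 := by
    rcases Nat.eq_zero_or_pos y.natDegree with h0 | h0
    · rw [h0, Nat.coprime_zero_left] at hc
      rw [hc] at h1
      exact Nat.dvd_one.1 h1
    · have hyE : Kv y ≤ E := by
        rw [hE, IntermediateField.restrictScalars_adjoin]
        rw [IntermediateField.adjoin_simple_le_iff]
        exact IntermediateField.subset_adjoin _ _ (Or.inr rfl)
      have hfy : FiniteDimensional (Kv y) (RatFunc k) :=
        Module.finite_of_finrank_pos (by rw [finrank_Kv]; exact h0)
      have h2 : Module.finrank E (RatFunc k) ∣ y.natDegree := by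
        rw [← finrank_Kv (v := y)]
        exact IntermediateField.finrank_dvd_of_le_left hyE
      exact Nat.eq_one_of_dvd_coprimes hc h2 h1
  exact IntermediateField.finrank_eq_one_iff_eq_top.1 hone

theorem key [CharZero k] {v y : k[X]} (hv : 0 < v.natDegree)
    (hc : Nat.Coprime y.natDegree v.natDegree) {N : k[X][X]} (hN : N ≠ 0)
    (hdeg : N.natDegree ≤ v.natDegree) (hev : ev v y N = 0) :
    N.coeff v.natDegree ≠ 0 ∧ ∀ P : k[X][X], P.natDegree < v.natDegree →
      Algebra.trace (Kv v) (RatFunc k) (io k (ev v y P) / io k (ev v y (derivative N))) =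
        psi v (P.coeff (v.natDegree - 1)) / psi v (N.coeff v.natDegree) := by
  classical
  have hfv : FiniteDimensional (Kv v) (RatFunc k) :=
    Module.finite_of_finrank_pos (by rw [finrank_Kv]; exact hv)
  have htop := gen_top hv hc
  have hint : IsIntegral (Kv v) (io k y) := Algebra.IsIntegral.isIntegral _
  have hdμ : (minpoly (Kv v) (io k y)).natDegree = v.natDegree := by
    rw [← IntermediateField.adjoin.finrank hint, htop, IntermediateField.finrank_top',
      finrank_Kv]
  have hmap0 : N.map (psi v) ≠ 0 := (Polynomial.map_ne_zero_iff (psi_injective hv)).2 hN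
  have hdvd : minpoly (Kv v) (io k y) ∣ N.map (psi v) := by
    refine minpoly.dvd _ _ ?_
    rw [aeval_psi, hev, map_zero]
  obtain ⟨q, hq⟩ := hdvd
  have hq0 : q ≠ 0 := by
    rintro rfl
    rw [mul_zero] at hq
    exact hmap0 hq
  have hmon : (minpoly (Kv v) (io k y)).Monic := minpoly.monic hint
  have hqd : q.natDegree = 0 := by
    have h1 : (N.map (psi v)).natDegree = v.natDegree + q.natDegree := by
      rw [hq, hmon.natDegree_mul' hq0, hdμ]
    have h2 : (N.map (psi v)).natDegree ≤ N.natDegree := natDegree_map_le
    omega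
  obtain ⟨c, rfl⟩ := natDegree_eq_zero.1 hqd
  have hc0 : c ≠ 0 := by
    rintro rfl
    exact hq0 (map_zero _)
  have hcoef : psi v (N.coeff v.natDegree) = c := by
    have h1 := congrArg (fun P => P.coeff v.natDegree) hq
    simp only [coeff_map, coeff_mul_C] at h1
    rw [h1, ← hdμ, hmon.coeff_natDegree, one_mul]
  refine ⟨fun h => hc0 (by rw [← hcoef, h, map_zero]), fun P hP => ?_⟩
  have hder : io k (ev v y (derivative N)) =
      aeval (io k y) (derivative (minpoly (Kv v) (io k y))) * (c : RatFunc k) := by
    rw [← aeval_psi, ← derivative_map, hq, derivative_mul, derivative_C, mul_zero, add_zero,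
      map_mul, aeval_C]
    rfl
  have hP' : (P.map (psi v)).natDegree < (minpoly (Kv v) (io k y)).natDegree := by
    rw [hdμ]
    exact lt_of_le_of_lt natDegree_map_le hP
  have h1 := euler (io k y) htop (P.map (psi v)) hP'
  rw [hdμ, coeff_map, aeval_psi] at h1
  rw [hder, hcoef, ← h1]
  have h2 : io k (ev v y P) / (aeval (io k y) (derivative (minpoly (Kv v) (io k y))) *
      (c : RatFunc k)) = c⁻¹ • (io k (ev v y P) /
        aeval (io k y) (derivative (minpoly (Kv v) (io k y)))) := by
    rw [Algebra.smul_def]
    change _ = ((c⁻¹ : Kv v) : RatFunc k) * _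
    rw [div_mul_eq_div_div, div_eq_mul_inv _ (c : RatFunc k), mul_comm]
    rfl
  rw [h2, map_smul, smul_eq_mul, mul_comm, ← div_eq_mul_inv]

theorem holds_TRC : PF.StTRC := by
  intro k _ _ m v y N G H hm hv hc hN hdeg hev hG hH heq
  subst hv
  obtain ⟨h1, h2⟩ := key hm hc hN hdeg hev
  refine ⟨h1, ?_⟩
  set T : k[X][X] := v.map C - C X with hT
  have hTc : T.coeff v.natDegree = C v.leadingCoeff := by
    rw [hT, coeff_sub, coeff_map, coeff_C, if_neg (by omega), sub_zero]
    rfl
  have hv0 : v ≠ 0 := by
    rintro rfl
    simp at hm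
  have hlc : (C v.leadingCoeff : k[X]) ≠ 0 := by
    rw [Ne, C_eq_zero]
    exact leadingCoeff_ne_zero.2 hv0
  have hT0 : T ≠ 0 := by
    intro h
    rw [h, coeff_zero] at hTc
    exact hlc hTc.symm
  have hTd : T.natDegree ≤ v.natDegree := by
    refine (natDegree_sub_le _ _).trans ?_
    rw [natDegree_C]
    exact max_le natDegree_map_le (Nat.zero_le _)
  have hevC : ∀ f : k[X], ev v X (f.map C) = f := by
    intro f
    have h : (ev v X).comp (mapRingHom C) = RingHom.id k[X] := by
      refine Polynomial.ringHom_ext (fun a => ?_) ?_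
      · simp [ev]
      · simp [ev]
    exact congrArg (fun g => g f) h
  have hTev : ev v X T = 0 := by
    rw [hT, map_sub, hevC]
    simp [ev]
  have hTder : ev v X (derivative T) = derivative v := by
    rw [hT, derivative_sub, derivative_C, sub_zero, derivative_map, hevC]
  obtain ⟨_, h3⟩ := key (y := X) hm (by rw [natDegree_X]; exact Nat.coprime_one_left _) hT0 hTd
    hTev
  have hG' := h2 G hG
  have hH' := h3 H hH
  rw [hTder, hTc] at hH'
  -- the two elements agree
  have hNd : io k (ev v y (derivative N)) ≠ 0 := by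
    intro h0
    have h4 := h2 (X ^ (v.natDegree - 1)) (by rw [natDegree_X_pow]; omega)
    rw [h0, div_zero, map_zero, coeff_X_pow, if_pos rfl, map_one] at h4
    have h5 : psi v (N.coeff v.natDegree) ≠ 0 := fun h => h1 (psi_injective hm (by
      rw [h, map_zero]))
    exact (one_div_ne_zero h5) h4.symm
  have hvd : io k (derivative v) ≠ 0 := by
    intro h0
    have h4 := h3 (X ^ (v.natDegree - 1)) (by rw [natDegree_X_pow]; omega)
    rw [hTder, hTc, h0, div_zero, map_zero, coeff_X_pow, if_pos rfl, map_one] at h4
    have h5 : psi v (C v.leadingCoeff) ≠ 0 := fun h => hlc (psi_injective hm (by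
      rw [h, map_zero]))
    exact (one_div_ne_zero h5) h4.symm
  have hquot : io k (ev v X H) / io k (derivative v) =
      io k (ev v y G) / io k (ev v y (derivative N)) := by
    rw [div_eq_div_iff hvd hNd, ← map_mul, heq, map_mul]
  rw [hquot, hG'] at hH'
  have h5 : psi v (N.coeff v.natDegree) ≠ 0 := fun h => h1 (psi_injective hm (by
    rw [h, map_zero]))
  have h6 : psi v (C v.leadingCoeff) ≠ 0 := fun h => hlc (psi_injective hm (by
    rw [h, map_zero]))
  rw [div_eq_div_iff h5 h6, ← map_mul, ← map_mul] at hH'
  have h7 := psi_injective hm hH'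
  rw [← h7]
  ring

end PF.Helper15
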